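import Pool.Agent.VG.Defs
import Pool.Agent.VG.Data

set_option autoImplicit false

open CategoryTheory Category Limits Pretriangulated Triangulated

open Pool.Agent.VG

universe v u

namespace Pool.Agent.Results.MP_f37e0b_al.GoodVersusVerdierGood

/-- Both implications between goodness and Verdier goodness of maps of distinguished triangles
fail in the derived category of abelian groups, and Verdier goodness implies goodness only in
triangulated categories all of whose morphisms are von Neumann regular. -/
theorem result :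
    (letI := HasDerivedCategory.standard (ModuleCat.{0} ℤ);
      (∃ (T T' : Triangle (DerivedCategory (ModuleCat.{0} ℤ)))
        (hT : T ∈ distTriang (DerivedCategory (ModuleCat.{0} ℤ)))
        (hT' : T' ∈ distTriang (DerivedCategory (ModuleCat.{0} ℤ))) (φ : T ⟶ T'),
        Good φ ∧ ¬ VerdierGood hT hT' φ) ∧
      (∃ (T T' : Triangle (DerivedCategory (ModuleCat.{0} ℤ)))
        (hT : T ∈ distTriang (DerivedCategory (ModuleCat.{0} ℤ)))
        (hT' : T' ∈ distTriang (DerivedCategory (ModuleCat.{0} ℤ))) (φ : T ⟶ T'),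
        VerdierGood hT hT' φ ∧ ¬ Good φ)) ∧
    (∀ (C : Type u) [Category.{v} C] [Preadditive C] [HasZeroObject C] [HasShift C ℤ]
      [∀ n : ℤ, (shiftFunctor C n).Additive] [Pretriangulated C],
      (∀ (T T' : Triangle C) (hT : T ∈ distTriang C) (hT' : T' ∈ distTriang C) (φ : T ⟶ T'),
        VerdierGood hT hT' φ → Good φ) →
      ∀ (X Y : C) (f : X ⟶ Y), ∃ g : Y ⟶ X, f ≫ g ≫ f = f) := by
  refine ⟨⟨?_, ?_⟩, ?_⟩
  · letI := HasDerivedCategory.standard (ModuleCat.{0} ℤ)
    exact exists_good_not_verdierGood_derived Data.zero Data.shortExact _ _ _ _ _ _ _ _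
      Data.c1 Data.c2 Data.c3 Data.c4 Data.c5 Data.c6 Data.n1 Data.n2 Data.n3 Data.n4
      Data.E5 Data.V1 Data.V2
  · letI := HasDerivedCategory.standard (ModuleCat.{0} ℤ)
    by_contra hcon
    have H : ∀ (T T' : Triangle (DerivedCategory (ModuleCat.{0} ℤ)))
        (hT : T ∈ distTriang (DerivedCategory (ModuleCat.{0} ℤ)))
        (hT' : T' ∈ distTriang (DerivedCategory (ModuleCat.{0} ℤ))) (φ : T ⟶ T'),
        VerdierGood hT hT' φ → Good φ := by
      intro T T' hT hT' φ hφ
      by_contra hg
      exact hcon ⟨T, T', hT, hT', φ, hφ, hg⟩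
    let S := DerivedCategory.singleFunctor (ModuleCat.{0} ℤ) 0
    obtain ⟨g, hg⟩ := regular_of_verdierGood_imp_good H (S.map (Data.mk Data.dbl))
    obtain ⟨g, rfl⟩ := S.map_surjective g
    apply Data.dbl_not_regular g
    apply S.map_injective
    rw [Functor.map_comp, Functor.map_comp, hg]
  · intro C _ _ _ _ _ _ H X Y f
    exact regular_of_verdierGood_imp_good H f

end Pool.Agent.Results.MP_f37e0b_al.GoodVersusVerdierGood
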